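import Mathlib

/-!
# Project PQ (helper783), part STR (helper891): counting lemmas

`fib_count` is the lemma of helper539 (`Pool/Agent/N539/PJ/Lp3.lean`).
-/

set_option autoImplicit false
set_option linter.all false

open Polynomial
open scoped Classical

namespace Pool.Agent.N891.PQ

/-- counting along one coordinate -/
theorem fib_count {ι α : Type} [Fintype ι] [DecidableEq ι] [DecidableEq α] (S : ι → Finset α)
    (i : ι) (B : Finset (ι → α)) (hB : B ⊆ Fintype.piFinset S) (M : ℕ)
    (h : ∀ a ∈ Fintype.piFinset S, ((S i).filter fun y => Function.update a i y ∈ B).card ≤ M) :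
    B.card * (S i).card ≤ M * (Fintype.piFinset S).card := by
  have h1 : (B ×ˢ S i).card ≤
      ((Fintype.piFinset S ×ˢ S i).filter fun x => Function.update x.1 i x.2 ∈ B).card := by
    refine Finset.card_le_card_of_injOn (fun x => (Function.update x.1 i x.2, x.1 i)) ?_ ?_
    · rintro ⟨b, y⟩ hx
      rw [Finset.mem_coe, Finset.mem_product] at hx
      obtain ⟨hb, hy⟩ := hx
      have hb' := Fintype.mem_piFinset.1 (hB hb)
      rw [Finset.mem_coe, Finset.mem_filter, Finset.mem_product]
      simp only at hb hy hb' ⊢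
      refine ⟨⟨?_, hb' i⟩, ?_⟩
      · rw [Fintype.mem_piFinset]
        intro j
        by_cases hj : j = i
        · subst hj
          rw [Function.update_self]
          exact hy
        · rw [Function.update_of_ne hj]
          exact hb' j
      · rw [Function.update_idem, Function.update_eq_self]
        exact hb
    · rintro ⟨b, y⟩ _ ⟨b', y'⟩ _ e
      simp only [Prod.mk.injEq] at e
      obtain ⟨e1, e2⟩ := e
      have e3 : y = y' := by
        have := congrFun e1 i
        rwa [Function.update_self, Function.update_self] at this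
      have e4 : b = b' := by
        funext j
        by_cases hj : j = i
        · subst hj; exact e2
        · have := congrFun e1 j
          rwa [Function.update_of_ne hj, Function.update_of_ne hj] at this
      rw [e3, e4]
  rw [Finset.card_product] at h1
  refine h1.trans ?_
  rw [Finset.card_filter, Finset.sum_product, mul_comm, ← smul_eq_mul, ← Finset.sum_const]
  refine Finset.sum_le_sum fun a ha => ?_
  rw [← Finset.card_filter]
  exact h a ha

/-- a polynomial function is polynomially bounded -/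
theorem mv_bound {σ : Type} (F : MvPolynomial σ ℤ) : ∃ C m : ℕ, ∀ (T : ℤ), 1 ≤ T →
    ∀ x : σ → ℤ, (∀ j, |x j| ≤ T) → |MvPolynomial.eval x F| ≤ C * T ^ m := by
  induction F using MvPolynomial.induction_on with
  | C c =>
    refine ⟨c.natAbs, 0, fun T hT x hx => ?_⟩
    rw [MvPolynomial.eval_C, pow_zero, mul_one, Int.natCast_natAbs]
  | add p q hp hq =>
    obtain ⟨C1, m1, h1⟩ := hp
    obtain ⟨C2, m2, h2⟩ := hq
    refine ⟨C1 + C2, max m1 m2, fun T hT x hx => ?_⟩
    have e1 := h1 T hT x hx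
    have e2 := h2 T hT x hx
    have e3 : T ^ m1 ≤ T ^ (max m1 m2) := pow_le_pow_right₀ hT (le_max_left _ _)
    have e4 : T ^ m2 ≤ T ^ (max m1 m2) := pow_le_pow_right₀ hT (le_max_right _ _)
    rw [map_add]
    refine (abs_add_le _ _).trans ?_
    push_cast
    have e5 := mul_le_mul_of_nonneg_left e3 (Int.natCast_nonneg C1)
    have e6 := mul_le_mul_of_nonneg_left e4 (Int.natCast_nonneg C2)
    linarith [add_mul (C1 : ℤ) C2 (T ^ (max m1 m2))]
  | mul_X p i hp =>
    obtain ⟨C1, m1, h1⟩ := hp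
    refine ⟨C1, m1 + 1, fun T hT x hx => ?_⟩
    rw [map_mul, MvPolynomial.eval_X, abs_mul, pow_succ, ← mul_assoc]
    exact mul_le_mul (h1 T hT x hx) (hx i) (abs_nonneg _) (by positivity)

/-- the number of elements of an interval in a residue class -/
theorem cls_count (N P : ℕ) (hP : 0 < P) (r : ZMod P) :
    ((Finset.Icc (-(N : ℤ)) N).filter fun y : ℤ => (y : ZMod P) = r).card ≤ 2 * (N / P) + 2 := by
  have hP' : (0 : ℤ) < P := by exact_mod_cast hP
  have h1 : ((Finset.Icc (-(N : ℤ)) N).filter fun y : ℤ => (y : ZMod P) = r).card ≤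
      (Finset.Icc ((-(N : ℤ)) / P) ((N : ℤ) / P)).card := by
    refine Finset.card_le_card_of_injOn (fun y => y / P) ?_ ?_
    · intro y hy
      rw [Finset.mem_coe, Finset.mem_filter, Finset.mem_Icc] at hy
      rw [Finset.mem_coe, Finset.mem_Icc]
      exact ⟨Int.ediv_le_ediv hP' hy.1.1, Int.ediv_le_ediv hP' hy.1.2⟩
    · intro y hy z hz h
      rw [Finset.mem_coe, Finset.mem_filter] at hy hz
      have e1 : ((y : ZMod P)) = (z : ZMod P) := hy.2.trans hz.2.symm
      rw [ZMod.intCast_eq_intCast_iff] at e1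
      have e2 : y % P = z % P := e1
      have e3 : y / P = z / P := h
      rw [← Int.mul_ediv_add_emod y P, ← Int.mul_ediv_add_emod z P, e2, e3]
  refine h1.trans ?_
  rw [Int.card_Icc]
  have e1 : (N : ℤ) / P = ((N / P : ℕ) : ℤ) := by push_cast; rfl
  have e2 : -(((N / P : ℕ) : ℤ)) - 1 ≤ (-(N : ℤ)) / P := by
    rw [Int.le_ediv_iff_mul_le hP']
    have e3 : (N : ℤ) < (((N / P : ℕ) : ℤ) + 1) * P := by
      have := Nat.lt_div_mul_add (a := N) hP
      have e4 : (N : ℤ) < ((N / P : ℕ) : ℤ) * P + P := by exact_mod_cast this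
      linarith
    linarith
  rw [e1]
  omega

/-- the number of roots modulo `P` in an interval -/
theorem root_count (N P n : ℕ) (hP : P.Prime) (f : ℤ[X]) (hf : f.natDegree ≤ n)
    (hl : ¬ (P : ℤ) ∣ f.coeff n) :
    ((Finset.Icc (-(N : ℤ)) N).filter fun y : ℤ => (P : ℤ) ∣ f.eval y).card ≤
      n * (2 * (N / P) + 2) := by
  haveI : Fact P.Prime := ⟨hP⟩
  obtain ⟨F, hF⟩ : ∃ F : (ZMod P)[X], F = f.map (Int.castRingHom (ZMod P)) := ⟨_, rfl⟩
  have hFn : F.coeff n ≠ 0 := by
    rw [hF, coeff_map, eq_intCast]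
    intro h
    exact hl ((ZMod.intCast_zmod_eq_zero_iff_dvd _ _).1 h)
  have hF0 : F ≠ 0 := by
    intro h
    rw [h, coeff_zero] at hFn
    exact hFn rfl
  have hFd : F.natDegree ≤ n := by
    rw [hF]
    exact natDegree_map_le.trans hf
  have hsub : ((Finset.Icc (-(N : ℤ)) N).filter fun y : ℤ => (P : ℤ) ∣ f.eval y) ⊆
      F.roots.toFinset.biUnion fun r =>
        (Finset.Icc (-(N : ℤ)) N).filter fun y : ℤ => (y : ZMod P) = r := by
    intro y hy
    rw [Finset.mem_filter] at hy
    rw [Finset.mem_biUnion]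
    refine ⟨(y : ZMod P), ?_, ?_⟩
    · rw [Multiset.mem_toFinset, mem_roots hF0, IsRoot.def, hF, eval_intCast_map, eq_intCast]
      exact (ZMod.intCast_zmod_eq_zero_iff_dvd _ _).2 hy.2
    · rw [Finset.mem_filter]
      exact ⟨hy.1, rfl⟩
  refine (Finset.card_le_card hsub).trans (Finset.card_biUnion_le.trans ?_)
  refine (Finset.sum_le_sum fun r _ => cls_count N P hP.pos r).trans ?_
  rw [Finset.sum_const, smul_eq_mul]
  refine Nat.mul_le_mul_right _ ?_
  exact (Multiset.toFinset_card_le _).trans ((card_roots' F).trans hFd)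

/-- the number of large prime divisors -/
theorem prime_count (B C m : ℕ) (D : ℤ) (hD : D ≠ 0) (hB : C ^ 2 < B)
    (hb : |D| ≤ (C : ℤ) * (B : ℤ) ^ m) (s : Finset ℕ)
    (hs : ∀ P ∈ s, P.Prime ∧ B ≤ P ^ 2 ∧ (P : ℤ) ∣ D) : s.card ≤ 2 * m := by
  have hB0 : 0 < B := by omega
  have h1 : (∏ P ∈ s, P) ∣ D.natAbs := by
    refine Finset.prod_primes_dvd _ (fun P hP => (hs P hP).1.prime) fun P hP => ?_
    exact Int.natCast_dvd.1 (hs P hP).2.2
  have h2 : (∏ P ∈ s, P) ≤ D.natAbs := Nat.le_of_dvd (Int.natAbs_pos.2 hD) h1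
  have h3 : D.natAbs ≤ C * B ^ m := by
    have : ((D.natAbs : ℕ) : ℤ) ≤ ((C * B ^ m : ℕ) : ℤ) := by
      rw [Int.natCast_natAbs]
      push_cast
      exact hb
    exact_mod_cast this
  have h4 : B ^ s.card ≤ (∏ P ∈ s, P) ^ 2 := by
    rw [← Finset.prod_pow, ← Finset.prod_const]
    exact Finset.prod_le_prod' fun P hP => (hs P hP).2.1
  have h5 : B ^ s.card ≤ (C * B ^ m) ^ 2 := h4.trans (Nat.pow_le_pow_left (h2.trans h3) 2)
  have h6 : (C * B ^ m) ^ 2 < B ^ (2 * m + 1) := by
    rw [mul_pow, ← pow_mul, pow_succ, mul_comm m 2, mul_comm]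
    exact Nat.mul_lt_mul_of_pos_left hB (by positivity)
  by_contra hcon
  push Not at hcon
  have h7 : B ^ (2 * m + 1) ≤ B ^ s.card := Nat.pow_le_pow_right hB0 hcon
  omega

end Pool.Agent.N891.PQ
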