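import Pool.Agent.N783.PQ.Cnt
import Pool.Agent.N568.PJ.D12
import Pool.Agent.N891.PQ.StrA

/-!
# Project PQ (helper783), part STR (helper891): strongly divisible discriminants
-/

set_option autoImplicit false
set_option linter.all false

open Polynomial
open scoped Classical

namespace Pool.Agent.N891.PQ

open Pool.Agent.N352.PJ (dd pol dis Dy D2 Dz S_D1 S_D2)
open Pool.Agent.N783.PQ (Bz S_STR)
open Pool.Agent.N568.PJ (d1 d2 D2_map)

theorem card_box (g B : ℕ) (hB : 1 ≤ B) (S : Fin (2 * g) → Finset ℤ)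
    (hS : ∀ j, (S j).card = 2 * B ^ (2 * g + 1 - (j : ℕ)) + 1) :
    (Fintype.piFinset S).card ≤ 3 ^ (2 * g) * B ^ dd g := by
  rw [Fintype.card_piFinset]
  have h1 : ∏ j, (S j).card ≤ ∏ j : Fin (2 * g), 3 * B ^ (2 * g + 1 - (j : ℕ)) := by
    refine Finset.prod_le_prod' fun j _ => ?_
    rw [hS]
    have : 1 ≤ B ^ (2 * g + 1 - (j : ℕ)) := Nat.one_le_pow _ _ hB
    omega
  refine h1.trans (le_of_eq ?_)
  rw [Finset.prod_mul_distrib, Finset.prod_const, Finset.card_univ, Fintype.card_fin,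
    Finset.prod_pow_eq_pow_sum]
  congr 2
  unfold dd
  have h2 : ∀ n : ℕ, n ≤ 2 * g → 2 * (∑ j ∈ Finset.range n, (2 * g + 1 - j)) + n * n =
      (4 * g + 3) * n := by
    intro n
    induction n with
    | zero => simp
    | succ n ih =>
      intro hn
      have := ih (by omega)
      rw [Finset.sum_range_succ, mul_add]
      obtain ⟨t, ht⟩ : ∃ t, 2 * g + 1 - n = t := ⟨_, rfl⟩
      have ht' : t + n = 2 * g + 1 := by omega
      rw [ht]
      nlinarith
  have h3 := h2 (2 * g) le_rfl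
  rw [Fin.sum_univ_eq_sum_range (fun j => 2 * g + 1 - j) (2 * g)]
  nlinarith

theorem str : S_STR := by
  intro g hg ε hε
  -- the bound for `D2`
  obtain ⟨C, m, hCm⟩ := mv_bound (D2 fun j : Fin (2 * g) => (MvPolynomial.X j : MvPolynomial (Fin (2 * g)) ℤ))
  have hD2b : ∀ (T : ℤ), 1 ≤ T → ∀ a : Fin (2 * g) → ℤ, (∀ j, |a j| ≤ T) → |D2 a| ≤ C * T ^ m := by
    intro T hT a ha
    have h1 := hCm T hT a ha
    have h2 := D2_map (MvPolynomial.eval a) (fun j : Fin (2 * g) => (MvPolynomial.X j :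
      MvPolynomial (Fin (2 * g)) ℤ))
    rw [h2] at h1
    simpa only [MvPolynomial.eval_X] using h1
  obtain ⟨m', hm'⟩ : ∃ m', m' = (2 * g + 1) * m := ⟨_, rfl⟩
  obtain ⟨K1, hK1⟩ : ∃ K1, K1 = (2 * g - 1) * (2 * g + 1) := ⟨_, rfl⟩
  obtain ⟨K, hK⟩ : ∃ K, K = K1 + 8 * m' * g := ⟨_, rfl⟩
  obtain ⟨n0, hn0⟩ : ∃ n0 : ℕ, ((K * 3 ^ (2 * g) : ℕ) : ℝ) / ε ≤ n0 := exists_nat_ge _
  refine ⟨n0 ^ 2 + C ^ 2 + (2 * g + 1) ^ 2 + 2, fun B hB => ?_⟩
  have hB1 : 1 ≤ B := by omega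
  have hBC : C ^ 2 < B := by omega
  have hBg : (2 * g + 1) ^ 2 < B := by omega
  obtain ⟨Q, hQ⟩ : ∃ Q, Q = Nat.sqrt B := ⟨_, rfl⟩
  have hQn : n0 ≤ Q := by
    rw [hQ, Nat.le_sqrt']
    omega
  have hQ1 : 1 ≤ Q := by
    rw [hQ, Nat.le_sqrt']
    omega
  have hQB : Q ≤ B := by
    rw [hQ]
    exact Nat.sqrt_le_self B
  have hPQ : ∀ P : ℕ, B ≤ P ^ 2 → Q ≤ P := by
    intro P hP
    rw [hQ]
    have := Nat.sqrt_le_sqrt hP
    rwa [Nat.sqrt_eq'] at this
  have hPg : ∀ P : ℕ, B ≤ P ^ 2 → 2 * g + 1 < P := by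
    intro P hP
    by_contra hcon
    push Not at hcon
    have := Nat.pow_le_pow_left hcon 2
    omega
  -- the sets
  obtain ⟨S, hS⟩ : ∃ S : Fin (2 * g) → Finset ℤ, S = fun j : Fin (2 * g) =>
    Finset.Icc (-((B ^ (2 * g + 1 - (j : ℕ)) : ℕ) : ℤ)) ((B ^ (2 * g + 1 - (j : ℕ)) : ℕ) : ℤ) := ⟨_, rfl⟩
  have hScard : ∀ j : Fin (2 * g), (S j).card = 2 * B ^ (2 * g + 1 - (j : ℕ)) + 1 := by
    intro j
    rw [hS]
    simp only [Int.card_Icc]
    omega
  have hmem : ∀ a : Fin (2 * g) → ℤ, a ∈ Fintype.piFinset S ↔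
      ∀ j, |a j| ≤ (B : ℤ) ^ (2 * g + 1 - (j : ℕ)) := by
    intro a
    rw [Fintype.mem_piFinset]
    refine forall_congr' fun j => ?_
    rw [hS]
    simp only [Finset.mem_Icc, abs_le]
    push_cast
    rfl
  have hbd : ∀ a ∈ Fintype.piFinset S, |D2 a| ≤ (C : ℤ) * (B : ℤ) ^ m' := by
    intro a ha
    rw [hm', pow_mul]
    refine hD2b _ (one_le_pow₀ (by exact_mod_cast hB1)) a fun j => ?_
    refine ((hmem a).1 ha j).trans ?_
    exact pow_le_pow_right₀ (by exact_mod_cast hB1) (Nat.sub_le _ _)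
  -- the two coordinates
  obtain ⟨i0, hi0⟩ : ∃ i0 : Fin (2 * g), (i0 : ℕ) = 0 := ⟨⟨0, by omega⟩, rfl⟩
  obtain ⟨i1, hi1⟩ : ∃ i1 : Fin (2 * g), (i1 : ℕ) = 1 := ⟨⟨1, by omega⟩, rfl⟩
  have hup0 : ∀ (a : Fin (2 * g) → ℤ) (y : ℤ),
      (fun j : Fin (2 * g) => if (j : ℕ) = 0 then y else a j) = Function.update a i0 y := by
    intro a y
    funext j
    by_cases hj : j = i0
    · subst hj
      rw [Function.update_self, if_pos hi0]
    · rw [Function.update_of_ne hj, if_neg]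
      intro h
      exact hj (Fin.ext (h.trans hi0.symm))
  have hDy : ∀ (a : Fin (2 * g) → ℤ) (y : ℤ), Dy (Function.update a i0 y) = Dy a := by
    intro a y
    unfold Dy
    congr 1
    funext j
    split_ifs with hj
    · rfl
    · rw [Function.update_of_ne]
      intro h
      rw [h] at hj
      exact hj hi0
  have hD2 : ∀ (a : Fin (2 * g) → ℤ) (y : ℤ), D2 (Function.update a i0 y) = D2 a := by
    intro a y
    unfold D2
    rw [hDy]
  -- the bad sets
  obtain ⟨Z, hZ⟩ : ∃ Z : Finset (Fin (2 * g) → ℤ), Z = (Fintype.piFinset S).filter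
    (fun a => ∃ P : ℕ, P.Prime ∧ B ≤ P ^ 2 ∧ (P : ℤ) ∣ dis a ∧ (P : ℤ) ∣ D2 a) := ⟨_, rfl⟩
  have hZn : {a ∈ Bz g B | ∃ P : ℕ, P.Prime ∧ B ≤ P ^ 2 ∧ (P : ℤ) ∣ dis a ∧ (P : ℤ) ∣ D2 a}.ncard =
      Z.card := by
    rw [hZ, ← Set.ncard_coe_finset, Finset.coe_filter]
    congr 1
    ext a
    simp only [Set.mem_setOf_eq]
    rw [hmem]
    rfl
  rw [hZn]
  obtain ⟨Z1, hZ1⟩ : ∃ Z1 : Finset (Fin (2 * g) → ℤ), Z1 = (Fintype.piFinset S).filter
    (fun a => D2 a = 0) := ⟨_, rfl⟩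
  obtain ⟨Z2, hZ2⟩ : ∃ Z2 : Finset (Fin (2 * g) → ℤ), Z2 = Z.filter
    (fun a => D2 a ≠ 0) := ⟨_, rfl⟩
  have hZZ : Z.card ≤ Z1.card + Z2.card := by
    refine (Finset.card_le_card (t := Z1 ∪ Z2) ?_).trans (Finset.card_union_le _ _)
    intro a ha
    rw [Finset.mem_union, hZ1, hZ2, Finset.mem_filter, Finset.mem_filter]
    by_cases h0 : D2 a = 0
    · left
      rw [hZ, Finset.mem_filter] at ha
      exact ⟨ha.1, h0⟩
    · right
      exact ⟨ha, h0⟩
  -- the first set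
  have c1 : Z1.card * (S i1).card ≤ K1 * (Fintype.piFinset S).card := by
    refine fib_count S i1 Z1 (by rw [hZ1]; exact Finset.filter_subset _ _) K1 ?_
    intro a _
    obtain ⟨e1, e2, e3⟩ := d2 g ℚ ℚ (fun j => ((a j : ℤ) : ℚ)) hg (by
      exact_mod_cast Nat.factorial_ne_zero _)
    have e4 : Dz (fun j => ((a j : ℤ) : ℚ)) ≠ 0 := by
      intro h
      rw [h, coeff_zero] at e2
      exact e2.ne_zero rfl
    refine (Finset.card_le_card_of_injOn (t := (Dz (fun j => ((a j : ℤ) : ℚ))).roots.toFinset)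
      (fun y : ℤ => (y : ℚ)) ?_ ?_).trans ?_
    · intro y hy
      rw [Finset.mem_coe, Finset.mem_filter, hZ1, Finset.mem_filter] at hy
      rw [Finset.mem_coe, Multiset.mem_toFinset, mem_roots e4, IsRoot.def, e3]
      have h3 := D2_map (Int.castRingHom ℚ) (Function.update a i1 y)
      rw [hy.2.2, map_zero] at h3
      rw [h3]
      congr 1
      funext j
      rw [eq_intCast]
      by_cases hj : j = i1
      · subst hj
        rw [Function.update_self, if_pos hi1]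
      · rw [Function.update_of_ne hj, if_neg]
        intro h
        exact hj (Fin.ext (h.trans hi1.symm))
    · intro y _ z _ h
      exact Int.cast_injective h
    · refine (Multiset.toFinset_card_le _).trans ((card_roots' _).trans ?_)
      rw [hK1]
      exact e1
  -- the second set
  obtain ⟨N, hN⟩ : ∃ N, N = B ^ (2 * g + 1) := ⟨_, rfl⟩
  have hSi0 : S i0 = Finset.Icc (-(N : ℤ)) N := by
    rw [hS, hN]
    simp only [hi0, Nat.sub_zero]
  obtain ⟨X', hX'⟩ : ∃ X', X' = 2 * m' * (2 * g * (2 * (N / Q) + 2)) := ⟨_, rfl⟩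
  have hZ2s : Z2 ⊆ Fintype.piFinset S := by
    rw [hZ2, hZ]
    exact (Finset.filter_subset _ _).trans (Finset.filter_subset _ _)
  have c2 : Z2.card * (S i0).card ≤ X' * (Fintype.piFinset S).card := by
    refine fib_count S i0 Z2 hZ2s _ ?_
    intro a ha
    obtain ⟨e1, ⟨s, hs, e2⟩, e3⟩ := d1 g ℤ a hg
    by_cases h0 : D2 a = 0
    · have : ((S i0).filter fun y => Function.update a i0 y ∈ Z2) = ∅ := by
        rw [Finset.filter_eq_empty_iff]
        intro y _ hy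
        rw [hZ2, Finset.mem_filter, hD2] at hy
        exact hy.2 h0
      rw [this, Finset.card_empty]
      exact Nat.zero_le _
    · -- the primes
      obtain ⟨L, hL⟩ : ∃ L : Finset ℕ, L = (D2 a).natAbs.primeFactors.filter fun P => B ≤ P ^ 2 :=
        ⟨_, rfl⟩
      have hLm : ∀ P, P ∈ L ↔ P.Prime ∧ B ≤ P ^ 2 ∧ (P : ℤ) ∣ D2 a := by
        intro P
        rw [hL, Finset.mem_filter, Nat.mem_primeFactors, ← Int.natCast_dvd]
        constructor
        · rintro ⟨⟨h1, h2, _⟩, h3⟩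
          exact ⟨h1, h3, h2⟩
        · rintro ⟨h1, h3, h2⟩
          exact ⟨⟨h1, h2, by rwa [Ne, Int.natAbs_eq_zero]⟩, h3⟩
      have hLc : L.card ≤ 2 * m' :=
        prime_count B C m' (D2 a) h0 hBC (hbd a ha) L fun P hP => (hLm P).1 hP
      have hsub : ((S i0).filter fun y => Function.update a i0 y ∈ Z2) ⊆
          L.biUnion fun P => (Finset.Icc (-(N : ℤ)) N).filter fun y : ℤ => (P : ℤ) ∣ (Dy a).eval y := by
        intro y hy
        rw [Finset.mem_filter, hZ2, Finset.mem_filter, hZ, Finset.mem_filter] at hy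
        obtain ⟨hy1, ⟨hy2, P, hP1, hP2, hP3, hP4⟩, hy3⟩ := hy
        rw [Finset.mem_biUnion]
        refine ⟨P, (hLm P).2 ⟨hP1, hP2, ?_⟩, ?_⟩
        · rwa [hD2] at hP4
        · rw [Finset.mem_filter, ← hSi0]
          refine ⟨hy1, ?_⟩
          rw [e3, hup0]
          exact hP3
      refine (Finset.card_le_card hsub).trans (Finset.card_biUnion_le.trans ?_)
      have hterm : ∀ P ∈ L, ((Finset.Icc (-(N : ℤ)) N).filter fun y : ℤ =>
          (P : ℤ) ∣ (Dy a).eval y).card ≤ 2 * g * (2 * (N / Q) + 2) := by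
        intro P hP
        obtain ⟨hP1, hP2, hP3⟩ := (hLm P).1 hP
        refine (root_count N P (2 * g) hP1 (Dy a) e1 ?_).trans ?_
        · intro hdvd
          have hPg' := hPg P hP2
          rw [e2] at hdvd
          have hPi : Prime (P : ℤ) := Nat.prime_iff_prime_int.1 hP1
          rcases hPi.dvd_or_dvd hdvd with h | h
          · have h' : (P : ℤ) ∣ s := by simpa using h
            have h5 : (P : ℤ) ∣ 1 := by
              rcases hs with rfl | rfl
              · exact h'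
              · exact (dvd_neg.1 h')
            exact hPi.not_unit (isUnit_of_dvd_one h5)
          · have h5 := hPi.dvd_of_dvd_pow h
            have h6 : (P : ℤ) ∣ ((2 * g + 1 : ℕ) : ℤ) := by
              push_cast
              exact h5
            have h7 := Nat.le_of_dvd (by omega) (Int.natCast_dvd_natCast.1 h6)
            omega
        · have h8 : N / P ≤ N / Q := Nat.div_le_div_left (hPQ P hP2) hQ1
          exact Nat.mul_le_mul_left _ (by omega)
      refine (Finset.sum_le_sum hterm).trans ?_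
      rw [Finset.sum_const, smul_eq_mul, hX']
      exact Nat.mul_le_mul_right _ hLc
  -- the sizes
  obtain ⟨V, hV⟩ : ∃ V, V = (Fintype.piFinset S).card := ⟨_, rfl⟩
  rw [← hV] at c1 c2
  have hS0 : (S i0).card = 2 * N + 1 := by rw [hScard, hi0, hN, Nat.sub_zero]
  have hS1 : Q ≤ (S i1).card := by
    rw [hScard, hi1, Nat.add_sub_cancel]
    have : B ≤ B ^ (2 * g) := Nat.le_self_pow (by omega) B
    omega
  have hNQ : Q ≤ N := by
    rw [hN]
    exact hQB.trans (Nat.le_self_pow (by omega) B)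
  have hN1 : 0 < N := by omega
  have t1 : Z1.card * Q ≤ K1 * V := (Nat.mul_le_mul_left _ hS1).trans c1
  have t2 : Z2.card * Q ≤ (8 * m' * g) * V := by
    have e1 : X' * Q ≤ (16 * m' * g) * N := by
      have h1 : (N / Q) * Q ≤ N := Nat.div_mul_le_self N Q
      have h2 : (2 * (N / Q) + 2) * Q ≤ 4 * N := by nlinarith
      rw [hX']
      calc 2 * m' * (2 * g * (2 * (N / Q) + 2)) * Q = (4 * m' * g) * ((2 * (N / Q) + 2) * Q) := by
            ring
        _ ≤ (4 * m' * g) * (4 * N) := Nat.mul_le_mul_left _ h2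
        _ = _ := by ring
    have e2 : (Z2.card * Q) * (2 * N) ≤ ((8 * m' * g) * V) * (2 * N) := by
      calc (Z2.card * Q) * (2 * N) = (Z2.card * (2 * N)) * Q := by ring
        _ ≤ (Z2.card * (S i0).card) * Q :=
          Nat.mul_le_mul_right _ (Nat.mul_le_mul_left _ (by omega))
        _ ≤ (X' * V) * Q := Nat.mul_le_mul_right _ c2
        _ = (X' * Q) * V := by ring
        _ ≤ ((16 * m' * g) * N) * V := Nat.mul_le_mul_right _ e1
        _ = _ := by ring
    exact Nat.le_of_mul_le_mul_right e2 (by omega)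
  have t3 : Z.card * Q ≤ K * V := by
    rw [hK, add_mul]
    refine (Nat.mul_le_mul_right Q hZZ).trans ?_
    rw [add_mul]
    exact Nat.add_le_add t1 t2
  have t4 : V ≤ 3 ^ (2 * g) * B ^ dd g := by
    rw [hV]
    exact card_box g B hB1 S hScard
  have t5 : Z.card * Q ≤ (K * 3 ^ (2 * g)) * B ^ dd g := by
    rw [mul_assoc]
    exact t3.trans (Nat.mul_le_mul_left _ t4)
  have t6 : (Z.card : ℝ) * (Q : ℝ) ≤ ((K * 3 ^ (2 * g) : ℕ) : ℝ) * (B : ℝ) ^ dd g := by
    exact_mod_cast t5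
  have t7 : ((K * 3 ^ (2 * g) : ℕ) : ℝ) ≤ ε * (Q : ℝ) := by
    rw [div_le_iff₀ hε] at hn0
    have h3 : (n0 : ℝ) ≤ Q := by exact_mod_cast hQn
    have h4 := mul_le_mul_of_nonneg_left h3 hε.le
    linarith
  have hQr : (0 : ℝ) < (Q : ℝ) := by exact_mod_cast hQ1
  have hBr : (0 : ℝ) ≤ (B : ℝ) ^ dd g := by positivity
  have t8 : (Z.card : ℝ) * (Q : ℝ) ≤ (ε * (B : ℝ) ^ dd g) * (Q : ℝ) := by
    have h3 := mul_le_mul_of_nonneg_right t7 hBr
    linarith
  exact le_of_mul_le_mul_right t8 hQr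

end Pool.Agent.N891.PQ
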