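import Pool.Agent.N783.PQ.Loc

/-!
# Project PQ (helper783), part TW (helper891): preliminaries

After `N352/PJ/Tw.lean` of helper352 and `N874/PP/Sel.lean` of helper874.
-/

set_option autoImplicit false
set_option linter.all false

open Polynomial IsDedekindDomain Matrix NumberField WithZero
open scoped Classical

namespace Pool.Agent.N891.PQ

open Pool.Agent.N352.PJ (Mt Typ dd)
open Pool.Agent.N874.PP (Ev Sq1 U0)
open Pool.Agent.N783.PQ

/-! ### Local images -/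

theorem locIm_one (F : Type) [Field F] (f : F[X]) : LocIm F f 1 :=
  ⟨[], 1, by simp, by simp⟩

theorem LocIm.mul {F : Type} [Field F] {f h h' : F[X]} (H : LocIm F f h) (H' : LocIm F f h') :
    LocIm F f (h * h') := by
  obtain ⟨l, s, h1, h2⟩ := H
  obtain ⟨l', s', h1', h2'⟩ := H'
  refine ⟨l ++ l', s * s', ?_, ?_⟩
  · intro p hp
    rcases List.mem_append.1 hp with hp | hp
    · exact h1 p hp
    · exact h1' p hp
  · rw [List.map_append, List.prod_append]
    obtain ⟨a, ha⟩ := h2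
    obtain ⟨b, hb⟩ := h2'
    refine ⟨a * (h' * (l'.map fun p => (-1) ^ p.1.natDegree * p.1).prod) + s ^ 2 * b, ?_⟩
    linear_combination (h' * (l'.map fun p => (-1) ^ p.1.natDegree * p.1).prod) * ha + s ^ 2 * hb

/-! ### Primes of a number field -/

section below

variable {L : Type} [Field L] [NumberField L]

theorem exists_below (𝔓 : HeightOneSpectrum (𝓞 L)) : ∃ p : ℕ, p.Prime ∧ Ov p 𝔓 := by
  haveI := 𝔓.isPrime
  have hne : (𝔓.asIdeal.comap (algebraMap ℤ (𝓞 L))) ≠ ⊥ :=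
    Ideal.comap_ne_bot_of_integral_mem (I := 𝔓.asIdeal)
      (x := (Submodule.exists_mem_ne_zero_of_ne_bot 𝔓.ne_bot).choose)
      (Submodule.exists_mem_ne_zero_of_ne_bot 𝔓.ne_bot).choose_spec.2
      (Submodule.exists_mem_ne_zero_of_ne_bot 𝔓.ne_bot).choose_spec.1
      (Algebra.IsIntegral.isIntegral _)
  haveI hp : (𝔓.asIdeal.comap (algebraMap ℤ (𝓞 L))).IsPrime := Ideal.comap_isPrime _ _
  obtain ⟨g, hg⟩ := (IsPrincipalIdealRing.principal (𝔓.asIdeal.comap (algebraMap ℤ (𝓞 L)))).principal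
  change _ = Ideal.span {g} at hg
  have hg0 : g ≠ 0 := by
    rintro rfl
    apply hne
    rw [hg]
    simp
  have hgp : Prime g := by
    rw [hg] at hp
    exact (Ideal.span_singleton_prime hg0).1 hp
  refine ⟨g.natAbs, Int.prime_iff_natAbs_prime.1 hgp, ?_⟩
  have h1 : ((g.natAbs : ℕ) : ℤ) ∈ 𝔓.asIdeal.comap (algebraMap ℤ (𝓞 L)) := by
    rw [hg]
    exact Ideal.mem_span_singleton.2 (Int.dvd_natAbs.2 dvd_rfl)
  have h2 : algebraMap ℤ (𝓞 L) ((g.natAbs : ℕ) : ℤ) ∈ 𝔓.asIdeal := h1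
  unfold Ov
  rwa [map_natCast] at h2

theorem not_ev_exp {𝔓 : HeightOneSpectrum (𝓞 L)} {x : L}
    (h : 𝔓.valuation L x = WithZero.exp (-1 : ℤ)) : ¬ Ev 𝔓 x := by
  rintro ⟨y, hy⟩
  rw [h] at hy
  have hy0 : 𝔓.valuation L y ≠ 0 := by
    intro h0
    rw [h0] at hy
    simp at hy
  have h1 := congrArg WithZero.log hy
  rw [WithZero.log_exp, WithZero.log_pow] at h1
  simp only [smul_eq_mul, nsmul_eq_mul] at h1
  push_cast at h1
  omega

/-- The class of `x` at `𝔮`. -/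
noncomputable def cl (𝔮 : HeightOneSpectrum (𝓞 L)) (ϖ x : L) : ZMod 2 × ZMod 2 :=
  (if Ev 𝔮 x then 0 else 1, if U0 𝔮 ϖ x then 0 else 1)

theorem cl_add_aux {p q r : Prop} (h : r ↔ (p ↔ q)) :
    (if r then (0 : ZMod 2) else 1) = (if p then 0 else 1) + (if q then 0 else 1) := by
  by_cases hp : p <;> by_cases hq : q
  · rw [if_pos (h.2 (by tauto)), if_pos hp, if_pos hq, add_zero]
  · rw [if_neg (fun hr => hq ((h.1 hr).1 hp)), if_pos hp, if_neg hq, zero_add]
  · rw [if_neg (fun hr => hp ((h.1 hr).2 hq)), if_neg hp, if_pos hq, add_zero]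
  · rw [if_pos (h.2 (by tauto)), if_neg hp, if_neg hq]
    decide

end below

/-! ### Squares -/

/-- an integer which is `1` modulo `8` is a square in `ℚ_2` -/
theorem sq_two (D : ℕ) (hD : D % 8 = 1) : ∃ δ : ℚ_[2], δ ^ 2 = (D : ℚ_[2]) := by
  obtain ⟨F, hF⟩ : ∃ F : ℤ[X], F = X ^ 2 - C (D : ℤ) := ⟨_, rfl⟩
  have h1 : F.aeval (1 : ℤ_[2]) = ((1 - (D : ℤ) : ℤ) : ℤ_[2]) := by
    rw [hF, map_sub, map_pow, aeval_X, aeval_C]
    simp
  have h2 : F.derivative.aeval (1 : ℤ_[2]) = 2 := by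
    rw [hF]
    simp only [derivative_sub, derivative_X_pow, derivative_C, sub_zero, map_mul, aeval_C, map_pow,
      aeval_X, one_pow, mul_one]
    simp
  have hn2 : ‖(2 : ℤ_[2])‖ = 2⁻¹ := by
    have := PadicInt.norm_p (p := 2)
    push_cast at this
    exact this
  have h3 : ‖F.aeval (1 : ℤ_[2])‖ < ‖F.derivative.aeval (1 : ℤ_[2])‖ ^ 2 := by
    rw [h1, h2, hn2]
    have h4 : ‖((1 - (D : ℤ) : ℤ) : ℤ_[2])‖ ≤ ((2 : ℕ) : ℝ) ^ (-((3 : ℕ) : ℤ)) := by
      rw [PadicInt.norm_int_le_pow_iff_dvd]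
      push_cast
      omega
    refine h4.trans_lt ?_
    norm_num
  obtain ⟨z, hz, -⟩ := hensels_lemma h3
  refine ⟨(z : ℚ_[2]), ?_⟩
  rw [hF, map_sub, map_pow, aeval_X, aeval_C, sub_eq_zero] at hz
  have h5 := congrArg (fun x : ℤ_[2] => (x : ℚ_[2])) hz
  simpa using h5

/-! ### Twists -/

theorem ov_scale (F : Type) [Field F] [CharZero F] {f : ℤ[X]} (hm : f.Monic) (D : ℤ) :
    ov F (f.scaleRoots D) = (ov F f).scaleRoots (D : F) := by
  unfold ov
  rw [map_scaleRoots]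
  · rfl
  · rw [hm.leadingCoeff]
    simp

theorem rd_scale {f : ℤ[X]} {D : ℤ} (hD : ((D : ℤ) : ZMod 2) = 1) :
    rd 2 (f.scaleRoots D) = rd 2 f := by
  ext i
  rw [coeff_map, coeff_map, coeff_scaleRoots, map_mul, map_pow, eq_intCast _ D, hD, one_pow, mul_one]

theorem rd_congr {f f' : ℤ[X]} {W p : ℕ} (h : Cg W f f') (hp : p ∣ W) : rd p f = rd p f' := by
  ext i
  rw [coeff_map, coeff_map, eq_intCast, eq_intCast, ← sub_eq_zero, ← Int.cast_sub,
    ZMod.intCast_zmod_eq_zero_iff_dvd]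
  exact (Int.natCast_dvd_natCast.2 hp).trans (h i)

theorem irr_of_rd {f : ℤ[X]} (hm : f.Monic) (h : Irreducible (rd 2 f)) : Irreducible (ov ℚ f) := by
  have h1 : Irreducible f := Monic.irreducible_of_irreducible_map (Int.castRingHom (ZMod 2)) f hm h
  have h2 := (Monic.irreducible_iff_irreducible_map_fraction_map (K := ℚ) hm).1 h1
  exact h2

/-! ### Bad polynomials -/

theorem LBad.mono {g N c c' : ℕ} {S : Finset ℕ} {h : ℕ → ℤ[X]} {f : ℤ[X]} (hc : c ≤ c')
    (H : LBad g N c S h f) : LBad g N c' S h f := by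
  obtain ⟨h1, w, h2, h3, h4, A, B, ⟨hb, hcon, hd⟩, hch⟩ := H
  refine ⟨h1, w, h2, h3, ?_, A, B, ⟨⟨hb.sA, hb.sB, hb.det, hb.tr, ?_, hb.bB⟩, hcon, hd⟩, hch⟩
  · rcases h4 with h4 | h4
    · exact Or.inl h4
    · right
      unfold Deep at h4 ⊢
      have : (c : ℤ) ≤ c' := by exact_mod_cast hc
      linarith
  · intro i j
    refine (hb.bA i j).trans ?_
    refine zpow_le_zpow_right₀ (by norm_num) ?_
    have : (c : ℤ) ≤ c' := by exact_mod_cast hc
    linarith

/-! ### The field -/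

theorem exists_field {g : ℕ} {f : ℤ[X]} (hm : f.Monic) (hd : f.natDegree = 2 * g + 1)
    (hirr : Irreducible (ov ℚ f)) :
    ∃ (L : Type) (_ : Field L) (_ : NumberField L) (θ : L), IsGen g f θ := by
  haveI hf : Fact (Irreducible (ov ℚ f)) := ⟨hirr⟩
  have hm' : (ov ℚ f).Monic := hm.map _
  have hd' : (ov ℚ f).natDegree = 2 * g + 1 := by rw [ov, hm.natDegree_map, hd]
  haveI hfd : FiniteDimensional ℚ (AdjoinRoot (ov ℚ f)) := hm'.finite_adjoinRoot
  haveI hcz : CharZero (AdjoinRoot (ov ℚ f)) :=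
    charZero_of_injective_algebraMap (algebraMap ℚ (AdjoinRoot (ov ℚ f))).injective
  haveI hnf : NumberField (AdjoinRoot (ov ℚ f)) :=
    { to_charZero := hcz, to_finiteDimensional := by convert hfd }
  refine ⟨AdjoinRoot (ov ℚ f), inferInstance, hnf, AdjoinRoot.root (ov ℚ f), hm, hd, ?_, ?_, ?_⟩
  · have h := AdjoinRoot.eval₂_root (ov ℚ f)
    rw [ov, eval₂_map] at h
    rw [aeval_def]
    refine Eq.trans ?_ h
    exact congrArg (fun φ : ℤ →+* AdjoinRoot (ov ℚ f) => eval₂ φ (AdjoinRoot.root (ov ℚ f)) f)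
      (RingHom.ext_int _ _)
  · have h1 : Module.finrank ℚ (AdjoinRoot (ov ℚ f)) = 2 * g + 1 := by
      rw [(AdjoinRoot.powerBasis hm'.ne_zero).finrank, AdjoinRoot.powerBasis_dim, hd']
    convert h1
  · intro x
    obtain ⟨p, rfl⟩ := AdjoinRoot.mk_surjective x
    have h1 : AdjoinRoot.mk (ov ℚ f) p = AdjoinRoot.mk (ov ℚ f) (p %ₘ ov ℚ f) := by
      rw [AdjoinRoot.mk_eq_mk, modByMonic_eq_sub_mul_div p (ov ℚ f)]
      rw [sub_sub_cancel]
      exact dvd_mul_right _ _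
    have hlt : (p %ₘ ov ℚ f).natDegree < 2 * g + 1 := by
      rw [← hd']
      exact natDegree_modByMonic_lt p hm' (by
        intro h
        rw [h] at hd'
        simp at hd')
    refine ⟨fun i => (p %ₘ ov ℚ f).coeff i, ?_⟩
    rw [h1]
    conv_lhs => rw [(p %ₘ ov ℚ f).as_sum_range_C_mul_X_pow' hlt]
    rw [map_sum, Finset.sum_range]
    refine Finset.sum_congr rfl fun i _ => ?_
    rw [map_mul, map_pow, AdjoinRoot.mk_X, AdjoinRoot.mk_C]
    rfl

end Pool.Agent.N891.PQ
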