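import Pool.Agent.N891.PQ.TwA
import Pool.Agent.N874.PP.Lat

/-!
# Project PQ (helper783), part TW (helper891): a twist with trivial 2-Selmer group

After `N352/PJ/Sel.lean` and `N352/PJ/Tw.lean` of helper352 and `N874/PP/Sel.lean` of helper874.
-/

set_option autoImplicit false
set_option linter.all false

open Polynomial IsDedekindDomain Matrix NumberField WithZero
open scoped Classical

namespace Pool.Agent.N891.PQ

open Pool.Agent.N352.PJ (Mt Typ dd)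
open Pool.Agent.N874.PP (Ev Sq1 U0 S_LIN)
open Pool.Agent.N783.PQ

/-- the statement `S_LB` for fixed `g` and `κ` -/
def LBs (g κ : ℕ) : Prop := ∀ (L : Type) [Field L] [NumberField L] (f : ℤ[X])
  (θ : L) (B N : ℕ) (S : Finset ℕ) (h : ℕ → ℤ[X]), ∀ hG : IsGen g f θ, Ht g B f →
  2 ^ κ * B ≤ 4 ^ N → (∀ q ∈ S, Cg q f (X * h q)) →
  ∀ (α : L) (e : Fin (2 * g + 1) → L) (A A' : Mt g ℤ), α ≠ 0 → IsSquare (Algebra.norm ℚ α) →
  Lat hG α e A A' → (∀ q ∈ S, DistMod q A A') →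
  (¬ IsSquare α ∨ (α = 1 ∧ ∀ j : ℤ, (∃ v : Fin (2 * g + 1) → ℤ, (j : L) = ∑ i, (v i : L) * e i) →
    j = 0 ∨ (B : ℤ) ≤ j ^ 2)) → LBad g N κ S h f

theorem comp_locIm {F : Type} [Field F] [CharZero F] {g : ℕ} {f : ℤ[X]} (hm : f.Monic)
    (hd : f.natDegree = 2 * g + 1) (hSQT : S_SQT) {D : ℕ} (hD0 : D ≠ 0) (δ : F)
    (hδ : δ ^ 2 = (D : F)) (h : ℚ[X]) (H : LocIm F (ov F (f.scaleRoots (D : ℤ))) (oq F h)) :
    LocIm F (ov F f) (oq F (h.comp (C (D : ℚ) * X))) := by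
  have hδ0 : δ ≠ 0 := by
    intro h0
    rw [h0, zero_pow two_ne_zero] at hδ
    exact hD0 (by exact_mod_cast hδ.symm)
  have h1 := hSQT F g (ov F f) (oq F h) δ (hm.map _) (by
    unfold ov
    rw [hm.natDegree_map, hd]) hδ0
  rw [hδ] at h1
  rw [ov_scale F hm] at H
  have h2 := h1 (by simpa using H)
  have e : oq F (h.comp (C (D : ℚ) * X)) = (oq F h).comp (C (D : F) * X) := by
    unfold oq
    rw [Polynomial.map_comp, Polynomial.map_mul, map_C, map_X]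
    congr 3
    simp
  rw [e]
  exact h2

theorem sel_core {L : Type} [Field L] [NumberField L] {g B N W κ : ℕ} {f f₁ : ℤ[X]} {θ : L}
    {S : Finset ℕ} {r : ℕ → ℤ[X]}
    (hCLS : S_CLS) (hLIN : S_LIN) (hEXQ : S_EXQ) (hNS : S_NS) (hPARQ : S_PARQ) (hP2 : S_P2)
    (hREC : S_REC) (hLOC1 : S_LOC1) (hLOC2 : S_LOC2) (hSQT : S_SQT) (hSD : S_SD) (hTV : S_TV)
    (hLB : LBs g κ) (hg : 1 ≤ g) (hc : IsGen g f θ) (hsq : Squarefree (dsc g f))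
    (h2irr : Irreducible (rd 2 f)) (hS : GoodS g W S r)
    (hF : Fam g B W f₁ S r f) (hBN : 2 ^ κ * B ≤ 4 ^ N) (hnb : ¬ LBad g N κ S r f) :
    ∃ J ⊆ S, ∀ h : ℚ[X], aeval (((∏ q ∈ J, q : ℕ) : L) * θ) h ≠ 0 →
      IsSquare (Algebra.norm ℚ (aeval (((∏ q ∈ J, q : ℕ) : L) * θ) h)) →
      (∀ (p : ℕ) [Fact p.Prime], LocIm ℚ_[p] (ov ℚ_[p] (f.scaleRoots ((∏ q ∈ J, q : ℕ) : ℤ)))
        (oq ℚ_[p] h)) →
      LocIm ℝ (ov ℝ (f.scaleRoots ((∏ q ∈ J, q : ℕ) : ℤ))) (oq ℝ h) →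
      IsSquare (aeval (((∏ q ∈ J, q : ℕ) : L) * θ) h) := by
  have hqp : ∀ q ∈ S, q.Prime := fun q hq => (hS q hq).1
  have hq2 : ∀ q ∈ S, q ≠ 2 := by
    intro q hq h
    have := (hS q hq).2.2.2.1
    rw [h] at this
    omega
  have hex : ∀ q ∈ S, ∃ 𝔓₁ 𝔮 : HeightOneSpectrum (𝓞 L), Ov q 𝔓₁ ∧ Ov q 𝔮 ∧
      𝔓₁.valuation L θ < 1 ∧ 𝔮.valuation L θ = 1 ∧ ¬ Ev 𝔮 ((q : L) * θ) ∧
      ∀ 𝔓 : HeightOneSpectrum (𝓞 L), Ov q 𝔓 → 𝔓 = 𝔓₁ ∨ 𝔓 = 𝔮 := by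
    intro q hq
    obtain ⟨𝔓₁, 𝔮, a1, a2, a3, a4, a5, a6, a7⟩ :=
      hEXQ g W L f θ S r hg hc hsq hS q hq (hF.con q hq)
    refine ⟨𝔓₁, 𝔮, a1, a2, a3, a4, not_ev_exp ?_, a7⟩
    rw [map_mul, a6, a4, mul_one]
  haveI hne : Nonempty (HeightOneSpectrum (𝓞 L)) := by
    obtain ⟨m, hm⟩ := Ideal.exists_maximal (𝓞 L)
    exact ⟨⟨m, hm.isPrime, Ring.ne_bot_of_isMaximal_of_not_isField hm
      (NumberField.RingOfIntegers.not_isField L)⟩⟩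
  obtain ⟨𝔭, h𝔭⟩ : ∃ 𝔭 : ℕ → HeightOneSpectrum (𝓞 L), 𝔭 = fun q =>
    if hq : q ∈ S then (hex q hq).choose else Classical.arbitrary _ := ⟨_, rfl⟩
  obtain ⟨𝔮, h𝔮⟩ : ∃ 𝔮 : ℕ → HeightOneSpectrum (𝓞 L), 𝔮 = fun q =>
    if hq : q ∈ S then (hex q hq).choose_spec.choose else Classical.arbitrary _ := ⟨_, rfl⟩
  have hpq : ∀ q ∈ S, Ov q (𝔭 q) ∧ Ov q (𝔮 q) ∧ (𝔭 q).valuation L θ < 1 ∧
      (𝔮 q).valuation L θ = 1 ∧ ¬ Ev (𝔮 q) ((q : L) * θ) ∧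
      ∀ 𝔓 : HeightOneSpectrum (𝓞 L), Ov q 𝔓 → 𝔓 = 𝔭 q ∨ 𝔓 = 𝔮 q := by
    intro q hq
    have h := (hex q hq).choose_spec.choose_spec
    rw [h𝔭, h𝔮]
    simp only [dif_pos hq]
    exact h
  -- the group `M`
  obtain ⟨M, hMd⟩ : ∃ M : Set L, M = {α | α ≠ 0 ∧ IsSquare (Algebra.norm ℚ α) ∧
    (∀ 𝔓 : HeightOneSpectrum (𝓞 L), (∀ q ∈ S, 𝔓 ≠ 𝔮 q) → Ev 𝔓 α) ∧
    ∃ h₀ : ℚ[X], aeval θ h₀ = α ∧ LocIm ℚ_[2] (ov ℚ_[2] f) (oq ℚ_[2] h₀) ∧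
      LocIm ℝ (ov ℝ f) (oq ℝ h₀)} := ⟨_, rfl⟩
  have hMm : ∀ α, α ∈ M ↔ α ≠ 0 ∧ IsSquare (Algebra.norm ℚ α) ∧
    (∀ 𝔓 : HeightOneSpectrum (𝓞 L), (∀ q ∈ S, 𝔓 ≠ 𝔮 q) → Ev 𝔓 α) ∧
    ∃ h₀ : ℚ[X], aeval θ h₀ = α ∧ LocIm ℚ_[2] (ov ℚ_[2] f) (oq ℚ_[2] h₀) ∧
      LocIm ℝ (ov ℝ f) (oq ℝ h₀) := by
    intro α
    rw [hMd]
    rfl
  obtain ⟨ψ, hψd⟩ : ∃ ψ : L → (S → ZMod 2 × ZMod 2), ψ = fun (α : L) (q : S) =>
    cl (𝔮 (q : ℕ)) (((q : ℕ) : L) * θ) α := ⟨_, rfl⟩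
  have hϖ : ∀ q ∈ S, (q : L) * θ ≠ 0 := by
    intro q hq h0
    exact (hpq q hq).2.2.2.2.1 (by rw [h0]; exact ⟨0, by simp⟩)
  have hψ : ∀ α β : L, α ≠ 0 → β ≠ 0 → ψ (α * β) = ψ α + ψ β := by
    intro α β hα hβ
    rw [hψd]
    funext q
    have h := hCLS L q (𝔮 q) ((q : L) * θ) (hqp q q.2) (hq2 q q.2) (hpq q q.2).2.1
      (hϖ q q.2) (hpq q q.2).2.2.2.2.1 α β hα hβ
    exact Prod.ext (cl_add_aux h.1) (cl_add_aux h.2)
  have hEvmul : ∀ (𝔓 : HeightOneSpectrum (𝓞 L)) (x y : L), Ev 𝔓 x → Ev 𝔓 y → Ev 𝔓 (x * y) := by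
    rintro 𝔓 x y ⟨u, hu⟩ ⟨v, hv⟩
    exact ⟨u * v, by rw [map_mul, map_mul, hu, hv, mul_pow]⟩
  have hoq : ∀ (F : Type) [Field F] [CharZero F] (a b : ℚ[X]), oq F (a * b) = oq F a * oq F b := by
    intro F _ _ a b
    exact Polynomial.map_mul _
  have hMmul : ∀ α β, α ∈ M → β ∈ M → α * β ∈ M := by
    intro α β hα hβ
    rw [hMm] at hα hβ ⊢
    obtain ⟨h1, h2, h3, a, h4, h5, h6⟩ := hα
    obtain ⟨h1', h2', h3', b, h4', h5', h6'⟩ := hβ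
    refine ⟨mul_ne_zero h1 h1', ?_, fun 𝔓 h𝔓 => hEvmul 𝔓 _ _ (h3 𝔓 h𝔓) (h3' 𝔓 h𝔓), a * b, ?_, ?_, ?_⟩
    · rw [map_mul]
      exact h2.mul h2'
    · rw [map_mul, h4, h4']
    · rw [hoq]
      exact LocIm.mul h5 h5'
    · rw [hoq]
      exact LocIm.mul h6 h6'
  have hM1 : (1 : L) ∈ M := by
    rw [hMm]
    refine ⟨one_ne_zero, by rw [map_one]; exact IsSquare.one, fun 𝔓 _ => ⟨1, by rw [map_one, one_pow]⟩,
      1, by rw [map_one], ?_, ?_⟩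
    · have e : oq ℚ_[2] 1 = 1 := Polynomial.map_one _
      rw [e]
      exact locIm_one _ _
    · have e : oq ℝ 1 = 1 := Polynomial.map_one _
      rw [e]
      exact locIm_one _ _
  let Λ : AddSubgroup (S → ZMod 2 × ZMod 2) :=
    { carrier := {l | ∃ α ∈ M, ψ α = l}
      add_mem' := by
        rintro _ _ ⟨α, hα, rfl⟩ ⟨β, hβ, rfl⟩
        exact ⟨α * β, hMmul α β hα hβ, hψ α β ((hMm α).1 hα).1 ((hMm β).1 hβ).1⟩
      zero_mem' := by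
        refine ⟨1, hM1, ?_⟩
        have h := hψ 1 1 one_ne_zero one_ne_zero
        rw [mul_one] at h
        exact left_eq_add.1 h
      neg_mem' := by
        rintro _ ⟨α, hα, rfl⟩
        refine ⟨α, hα, ?_⟩
        rw [eq_neg_iff_add_eq_zero]
        funext Q
        exact Prod.ext (CharTwo.add_self_eq_zero _) (CharTwo.add_self_eq_zero _) }
  have hiso : ∀ l ∈ Λ, ∑ q : S, (l q).1 * (l q).2 = 0 := by
    rintro _ ⟨α, hα, rfl⟩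
    obtain ⟨b1, b2, b3, h₀, b4, b5, b6⟩ := (hMm α).1 hα
    have h := hREC g W L f θ S r hg hc hsq hS (fun q hq => hF.con q hq) 𝔮
      (fun q hq => ⟨(hpq q hq).2.1, (hpq q hq).2.2.2.1⟩) h₀ (by rw [b4]; exact b1)
      (by rw [b4]; exact b2) (by rw [b4]; exact b3) b5 b6
    rw [b4] at h
    have e1 : ∑ q : S, (ψ α q).1 * (ψ α q).2 = ∑ q ∈ S,
        (if ¬ Ev (𝔮 q) α ∧ ¬ Sq1 (𝔮 q) (α * ((q : L) * θ)) then (1 : ZMod 2) else 0) := by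
      rw [← Finset.sum_coe_sort S]
      refine Finset.sum_congr rfl fun q _ => ?_
      simp only [hψd, cl]
      by_cases he : Ev (𝔮 q) α
      · rw [if_pos he, zero_mul, if_neg (fun h => h.1 he)]
      · by_cases hs : Sq1 (𝔮 q) (α * (((q : ℕ) : L) * θ))
        · have hu : U0 (𝔮 q) (((q : ℕ) : L) * θ) α := ⟨fun h => absurd h he, fun _ => hs⟩
          rw [if_neg he, if_pos hu, mul_zero, if_neg (fun h => h.2 hs)]
        · have hu : ¬ U0 (𝔮 q) (((q : ℕ) : L) * θ) α := fun h => hs (h.2 he)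
          rw [if_neg he, if_neg hu, mul_one, if_pos ⟨he, hs⟩]
    rw [e1, Finset.sum_ite, Finset.sum_const_zero, add_zero, Finset.sum_const, nsmul_eq_mul,
      mul_one]
    exact (ZMod.natCast_eq_zero_iff_even).2 h
  obtain ⟨J, hJ⟩ := hLIN S Λ hiso
  obtain ⟨J', hJ'd⟩ : ∃ J' : Finset ℕ, J' = S.filter fun q => ∃ h : q ∈ S, (⟨q, h⟩ : S) ∈ J :=
    ⟨_, rfl⟩
  have hJ'S : J' ⊆ S := by rw [hJ'd]; exact Finset.filter_subset _ _
  refine ⟨J', hJ'S, fun h hα hN hloc hlocR => ?_⟩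
  obtain ⟨D, hD⟩ : ∃ D : ℕ, D = ∏ q ∈ J', q := ⟨_, rfl⟩
  rw [← hD] at hα hN hloc hlocR ⊢
  obtain ⟨α, hαdef⟩ : ∃ α : L, α = aeval ((D : L) * θ) h := ⟨_, rfl⟩
  rw [← hαdef] at hα hN ⊢
  have hD0 : D ≠ 0 := by
    rw [hD, Finset.prod_ne_zero_iff]
    exact fun q hq => (hqp q (hJ'S hq)).ne_zero
  have hD8 : D % 8 = 1 := by
    rw [hD]
    have : ∀ T : Finset ℕ, T ⊆ S → (∏ q ∈ T, q) % 8 = 1 := by
      intro T
      induction T using Finset.induction_on with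
      | empty => intro _; rfl
      | insert a T ha ih =>
        intro hT
        rw [Finset.prod_insert ha, Nat.mul_mod, ih fun x hx => hT (Finset.mem_insert_of_mem hx),
          (hS a (hT (Finset.mem_insert_self _ _))).2.2.2.1]
    exact this J' hJ'S
  -- primes not dividing `D`
  have hev1 : ∀ (p : ℕ) (𝔓 : HeightOneSpectrum (𝓞 L)), p.Prime → Ov p 𝔓 → ¬ p ∣ D →
      Ev 𝔓 α := by
    intro p 𝔓 hp hp𝔓 hpD
    by_cases hp2 : p = 2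
    · subst hp2
      exact hP2 g L f θ hc h2irr α hα hN 𝔓 hp𝔓
    · haveI : Fact p.Prime := ⟨hp⟩
      have h1 := hLOC1 g L f θ hg hc hsq p hp2 D h hpD
      rw [← hαdef] at h1
      exact h1 hα hN (hloc p) 𝔓 hp𝔓
  have hdvd : ∀ p : ℕ, p.Prime → p ∣ D → p ∈ J' := by
    intro p hp hpD
    rw [hD] at hpD
    obtain ⟨q, hq, hpq'⟩ := (hp.prime.dvd_finset_prod_iff _).1 hpD
    rwa [(Nat.prime_dvd_prime_iff_eq hp (hqp q (hJ'S hq))).1 hpq']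
  have h2loc : ∀ q ∈ J', U0 (𝔮 q) ((q : L) * θ) α ∧ Ev (𝔭 q) α := by
    intro q hq
    haveI : Fact q.Prime := ⟨hqp q (hJ'S hq)⟩
    have hDQ : D = q * ∏ p ∈ J'.erase q, p := by
      rw [hD]
      exact (Finset.mul_prod_erase J' (fun P => P) hq).symm
    have hnd : ¬ q ∣ ∏ p ∈ J'.erase q, p := by
      intro hd
      obtain ⟨p, hp, hqp'⟩ := ((hqp q (hJ'S hq)).prime.dvd_finset_prod_iff _).1 hd
      have hp' := Finset.mem_erase.1 hp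
      exact hp'.1 ((Nat.prime_dvd_prime_iff_eq (hqp q (hJ'S hq)) (hqp p (hJ'S hp'.2))).1 hqp').symm
    have h3 := hLOC2 g W L f θ S r hg hc hsq hS q (hJ'S hq) (hF.con q (hJ'S hq))
      (∏ p ∈ J'.erase q, p) h hnd
    rw [← hDQ, ← hαdef] at h3
    exact ⟨h3 hα (hloc q) _ (hpq q (hJ'S hq)).2.1 (hpq q (hJ'S hq)).2.2.2.1,
      hPARQ g W L f θ S r hg hc hsq hS q (hJ'S hq) (hF.con q (hJ'S hq)) α hα hN _
        (hpq q (hJ'S hq)).1 (hpq q (hJ'S hq)).2.2.1⟩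
  have hαM : α ∈ M := by
    rw [hMm]
    refine ⟨hα, hN, fun 𝔓 h𝔓 => ?_, h.comp (C (D : ℚ) * X), ?_, ?_, ?_⟩
    · obtain ⟨p, hpp, hp𝔓⟩ := exists_below 𝔓
      by_cases hpD : p ∣ D
      · have hpJ := hdvd p hpp hpD
        rcases (hpq p (hJ'S hpJ)).2.2.2.2.2 𝔓 hp𝔓 with rfl | rfl
        · exact (h2loc p hpJ).2
        · exact absurd rfl (h𝔓 p (hJ'S hpJ))
      · exact hev1 p 𝔓 hpp hp𝔓 hpD
    · rw [aeval_comp, map_mul, aeval_C, aeval_X, hαdef]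
      congr 2
      simp
    · obtain ⟨δ, hδ⟩ := sq_two D hD8
      exact comp_locIm hc.mon hc.deg hSQT hD0 δ hδ h (hloc 2)
    · exact comp_locIm hc.mon hc.deg hSQT hD0 (Real.sqrt D) (Real.sq_sqrt (Nat.cast_nonneg D)) h hlocR
  have hz : ψ α = 0 := by
    refine hJ _ ⟨α, hαM, rfl⟩ (fun q hq => ?_) (fun q hq => ?_)
    · have hqJ : (q : ℕ) ∈ J' := by
        rw [hJ'd]
        exact Finset.mem_filter.2 ⟨q.2, q.2, hq⟩
      rw [hψd]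
      exact if_pos (h2loc q hqJ).1
    · have hqJ : (q : ℕ) ∉ J' := by
        rw [hJ'd]
        exact fun h => hq (Finset.mem_filter.1 h).2.2
      rw [hψd]
      exact if_pos (hev1 q (𝔮 q) (hqp q q.2) (hpq q q.2).2.1 fun hd => hqJ (hdvd q (hqp q q.2) hd))
  have hz1 : ∀ q ∈ S, Ev (𝔮 q) α ∧ U0 (𝔮 q) ((q : L) * θ) α := by
    intro q hq
    have h1 := congrFun hz ⟨q, hq⟩
    rw [hψd] at h1
    have h2 := congrArg Prod.fst h1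
    have h3 := congrArg Prod.snd h1
    constructor
    · by_contra hn
      have : (if Ev (𝔮 q) α then (0 : ZMod 2) else 1) = 0 := h2
      rw [if_neg hn] at this
      exact one_ne_zero this
    · by_contra hn
      have : (if U0 (𝔮 q) ((q : L) * θ) α then (0 : ZMod 2) else 1) = 0 := h3
      rw [if_neg hn] at this
      exact one_ne_zero this
  have hEv : ∀ 𝔓 : HeightOneSpectrum (𝓞 L), Ev 𝔓 α := by
    intro 𝔓
    by_cases h : ∀ q ∈ S, 𝔓 ≠ 𝔮 q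
    · exact ((hMm α).1 hαM).2.2.1 𝔓 h
    · push Not at h
      obtain ⟨q, hq, rfl⟩ := h
      exact (hz1 q hq).1
  have hSq : ∀ q ∈ S, ∀ 𝔓 : HeightOneSpectrum (𝓞 L), Ov q 𝔓 → Sq1 𝔓 α := by
    intro q hq
    refine hNS g W L f θ S r hg hc hsq hS q hq (hF.con q hq) α hα hN
      (fun 𝔓 _ _ => hEv 𝔓) (fun 𝔓 h𝔓 hv => ?_)
    rcases (hpq q hq).2.2.2.2.2 𝔓 h𝔓 with rfl | rfl
    · exact absurd hv (hpq q hq).2.2.1.ne
    · exact (hz1 q hq).2.1 (hz1 q hq).1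
  by_contra hns
  obtain ⟨e, A, A', he, hL⟩ := hSD g L f θ hc hsq α hα hEv
  exact hnb (hLB L f θ B N S r hc hF.ht hBN (fun q hq => hF.con q hq) α e A A' hα hN hL
    (fun q hq => hTV g W L f θ S r hg hc hsq hS α e A A' hα he hL q hq (hF.con q hq) (hSq q hq))
    (Or.inl hns))

/-- From the absence of bad elements to a twist without 2-Selmer group. -/
theorem tw (hCLS : S_CLS) (hLIN : S_LIN) (hEXQ : S_EXQ) (hNS : S_NS) (hPARQ : S_PARQ) (hP2 : S_P2)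
    (hREC : S_REC) (hLOC1 : S_LOC1) (hLOC2 : S_LOC2) (hSQT : S_SQT) (hSD : S_SD) (hTV : S_TV)
    (hLB : S_LB) (hSQF : S_SQF) : S_TW := by
  intro g hg
  obtain ⟨κ₁, hκ₁⟩ := hLB g hg
  obtain ⟨κ₂, hκ₂⟩ := hSQF g hg
  refine ⟨max κ₁ κ₂, fun B N W f₁ S r f hf₁ hS hF hBN hB hnb => ?_⟩
  have hBN1 : 2 ^ κ₁ * B ≤ 4 ^ N :=
    (Nat.mul_le_mul_right _ (Nat.pow_le_pow_right (by norm_num) (le_max_left _ _))).trans hBN
  have hBN2 : 2 ^ κ₂ * B ≤ 4 ^ N :=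
    (Nat.mul_le_mul_right _ (Nat.pow_le_pow_right (by norm_num) (le_max_right _ _))).trans hBN
  have hnb1 : ¬ LBad g N κ₁ S r f := fun h => hnb (LBad.mono (le_max_left _ _) h)
  have hnb2 : ¬ LBad g N κ₂ S r f := fun h => hnb (LBad.mono (le_max_right _ _) h)
  have hsq : Squarefree (dsc g f) := hκ₂ B N W f₁ S r f hf₁ hS hF hBN2 hB hnb2
  have hm := hF.ht.mon
  have hd := hF.ht.deg
  have h2irr : Irreducible (rd 2 f) := by
    rw [rd_congr hF.one hf₁.two]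
    exact hf₁.irr
  obtain ⟨L, _, _, θ, hc⟩ := exists_field hm hd (irr_of_rd hm h2irr)
  obtain ⟨J, hJ, hsel⟩ := sel_core hCLS hLIN hEXQ hNS hPARQ hP2 hREC hLOC1 hLOC2 hSQT hSD hTV
    hκ₁ hg hc hsq h2irr hS hF hBN1 hnb1
  refine ⟨J, hJ, ?_⟩
  have hD0 : (∏ q ∈ J, q) ≠ 0 := by
    rw [Finset.prod_ne_zero_iff]
    exact fun q hq => (hS q (hJ hq)).1.ne_zero
  have hD2 : (((∏ q ∈ J, q : ℕ) : ℤ) : ZMod 2) = 1 := by
    have h1 : ∀ q ∈ J, ((q : ℕ) : ZMod 2) = 1 := by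
      intro q hq
      have h2 := (hS q (hJ hq)).2.2.2.1
      have h3 : q % 2 = 1 := by omega
      rw [← ZMod.natCast_mod q 2, h3]
      rfl
    rw [Int.cast_natCast, Nat.cast_prod]
    exact Finset.prod_eq_one h1
  generalize hDD : (∏ q ∈ J, q) = D at hD0 hD2 hsel ⊢
  have hmD : (f.scaleRoots (D : ℤ)).Monic := (monic_scaleRoots_iff (D : ℤ)).2 hm
  have hirrD : Irreducible (ov ℚ (f.scaleRoots (D : ℤ))) := by
    refine irr_of_rd hmD ?_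
    rw [rd_scale hD2]
    exact h2irr
  refine ⟨hirrD, ?_⟩
  intro h hcop hnorm hloc hlocR
  obtain ⟨F', hF'⟩ : ∃ F' : ℚ[X], F' = ov ℚ (f.scaleRoots (D : ℤ)) := ⟨_, rfl⟩
  rw [← hF'] at hirrD hcop hnorm ⊢
  haveI hfact' : Fact (Irreducible F') := ⟨hirrD⟩
  obtain ⟨Θ, hΘ⟩ : ∃ Θ : L, Θ = (D : L) * θ := ⟨_, rfl⟩
  rw [← hΘ] at hsel
  have hroot : aeval Θ F' = 0 := by
    have h1 := scaleRoots_eval₂_mul (p := f) (algebraMap ℤ L) θ (D : ℤ)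
    have h2 : eval₂ (algebraMap ℤ L) θ f = 0 := by
      rw [← aeval_def]
      exact hc.root
    rw [h2, mul_zero] at h1
    have h3 : aeval Θ F' = eval₂ (algebraMap ℤ L) ((algebraMap ℤ L) (D : ℤ) * θ)
        (f.scaleRoots (D : ℤ)) := by
      rw [hF', ov, aeval_def, eval₂_map, hΘ]
      have e1 : (algebraMap ℚ L).comp (Int.castRingHom ℚ) = algebraMap ℤ L := RingHom.ext_int _ _
      have e2 : (algebraMap ℤ L) (D : ℤ) = (D : L) := by simp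
      rw [e1, e2]
    rw [h3, h1]
  have hmF' : F'.Monic := by
    rw [hF']
    exact hmD.map _
  have hdF' : F'.natDegree = 2 * g + 1 := by
    rw [hF', ov, hmD.natDegree_map, natDegree_scaleRoots, hd]
  obtain ⟨φ, hφ⟩ : ∃ φ : AdjoinRoot F' →ₐ[ℚ] L, φ = AdjoinRoot.liftAlgHom F' (Algebra.ofId ℚ _) Θ hroot :=
    ⟨_, rfl⟩
  have hφmk : ∀ p : ℚ[X], φ (AdjoinRoot.mk F' p) = aeval Θ p := by
    intro p
    have h1 := AdjoinRoot.liftAlgHom_mk F' (Algebra.ofId ℚ L) Θ hroot p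
    rw [Algebra.toRingHom_ofId, ← Polynomial.aeval_def] at h1
    rw [hφ]
    exact h1
  have hφinj : Function.Injective φ := φ.toRingHom.injective
  haveI : FiniteDimensional ℚ (AdjoinRoot F') := hmF'.finite_adjoinRoot
  have hrk : Module.finrank ℚ (AdjoinRoot F') = Module.finrank ℚ L := by
    rw [hc.rank, (AdjoinRoot.powerBasis hmF'.ne_zero).finrank, AdjoinRoot.powerBasis_dim, hdF']
  have hφsurj : Function.Surjective φ :=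
    (LinearMap.injective_iff_surjective_of_finrank_eq_finrank (f := φ.toLinearMap) hrk).1 hφinj
  obtain ⟨e, he⟩ : ∃ e : AdjoinRoot F' ≃ₐ[ℚ] L, ∀ x, e x = φ x :=
    ⟨AlgEquiv.ofBijective φ ⟨hφinj, hφsurj⟩, fun _ => rfl⟩
  have hemk : ∀ p : ℚ[X], e (AdjoinRoot.mk F' p) = aeval Θ p := fun p => (he _).trans (hφmk p)
  have hne : aeval Θ h ≠ 0 := by
    intro h0
    obtain ⟨u, v, huv⟩ := hcop
    have := congrArg (aeval Θ) huv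
    rw [map_add, map_mul, map_mul, hroot, h0, mul_zero, mul_zero, add_zero, map_one] at this
    exact zero_ne_one this
  have hnorm' : IsSquare (Algebra.norm ℚ (aeval Θ h)) := by
    rw [← hemk, Algebra.norm_eq_of_algEquiv]
    exact hnorm
  obtain ⟨y, hy⟩ := hsel h hne hnorm' (fun p _ => hloc p) hlocR
  obtain ⟨z, rfl⟩ := hφsurj y
  obtain ⟨s, rfl⟩ := AdjoinRoot.mk_surjective z
  refine ⟨s, ?_⟩
  rw [← AdjoinRoot.mk_eq_zero]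
  apply hφinj
  rw [map_zero, hφmk, map_sub, map_pow, sub_eq_zero]
  rw [hφmk] at hy
  rw [pow_two]
  exact hy

end Pool.Agent.N891.PQ
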